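import Mathlib
import Pool.Agent.T9h57.LS.Ez

/-!
# Lang and Silverman's lower bound in all extensions of all degrees at once, for almost all
# invariants `j`

`K` is a number field of degree `n`. For almost all `j` in `K` (up to at most
`(D * B ^ (2 - η / 2 + ε)) ^ n` exceptions of absolute height at most `B`, while there are
`B ^ (2 n)` of them, up to factors `B ^ (n ε)` and depending on `K`), the following holds
simultaneously for ALL finite extensions `L / K`, of any degree, all elliptic curves
`E : y² = x³ + a x + b` over `L` of invariant `j`, and all points `P ≠ 0` over `L` of all powers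
of `E`: the absolute canonical height of `P` is at least

  `(1/12 - η) h(j) - (7/24) ρ - C`,   `ρ = (1 / n) ∑ log N v`,

where `C` is an absolute constant and the sum is taken over the simple poles `v ∤ 6` of `j` in `K`
which are ramified in `L` or above which `E` is not semistable. So, if `ρ ≤ (2/7 - δ) h(j)`, the
height is at least a constant times `h(j)`, and there are no torsion points over `L` if `h(j)` is
large, no matter how large the degree of `L` is. For example, let `S` be a finite set of primes of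
`K`, and let `K_S` be the maximal algebraic extension of `K` unramified outside `S`, which is
usually of infinite degree. Then for almost all `j ∈ K` and all elliptic curves over `K_S` of
invariant `j` which are semistable at the simple poles of `j` outside `S` all points over `K_S`
except `0` have height at least `(1/12 - η) h(j) - C_S`. The constant `1/12` is optimal, even over
`K`.

Proof: at the places of `L` above an unramified simple pole of `j`, `j` still has a simple pole.
If `E` is semistable there, its Weierstrass model is regular at the node, and so no point over `L`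
reduces to the node. So the height increases regularly by the factor `4` at each duplication, up
to the contribution of the other places, which is small for almost all `j`.
-/

set_option autoImplicit false
set_option linter.unusedSectionVars false

namespace Pool.Agent.Results.MP_9a3c31_nt.AllExtensions

open NumberField IsDedekindDomain Pool.Agent.TH942 Pool.Agent.TH910.LS WeierstrassCurve

section Defs

variable {K : Type} [Field K] [NumberField K]

/-- the `j`-invariant of `y² = x³ + a x + b` -/
noncomputable def jInv (a b : K) : K := 6912 * a ^ 3 / (4 * a ^ 3 + 27 * b ^ 2)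

/-- the absolute logarithmic height -/
noncomputable def hj (j : K) : ℝ := Height.logHeight₁ j / Module.finrank ℚ K

open Classical in
/-- the absolute canonical height of a point -/
noncomputable def can {a b : K} (P : SPt a b) : ℝ := chat P / (2 * Module.finrank ℚ K)

open Classical in
/-- the absolute canonical height of a point of a power -/
noncomputable def canM {a b : K} {g : ℕ} (M : Matrix (Fin g) (Fin g) ℤ) (P : Fin g → SPt a b) : ℝ :=
  chatM M P / (2 * Module.finrank ℚ K)

/-- `v` does not divide `6` and is a simple pole of `j` -/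
def SimplePole (j : K) (v : HeightOneSpectrum (𝓞 K)) : Prop :=
  FinitePlace.mk v (2 : K) = 1 ∧ FinitePlace.mk v (3 : K) = 1 ∧
    FinitePlace.mk v j = (Ideal.absNorm v.asIdeal : ℝ)

/-- `y² = x³ + a x + b` is isomorphic to a curve `y² = x³ + u⁴ a x + u⁶ b` with coefficients which
are units at `w`; at the poles `w ∤ 6` of its invariant this means multiplicative reduction. -/
def Semistable (a b : K) (w : HeightOneSpectrum (𝓞 K)) : Prop :=
  ∃ u : K, FinitePlace.mk w (u ^ 4 * a) = 1 ∧ FinitePlace.mk w (u ^ 6 * b) = 1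

/-- `v` is unramified in `L`, and the curve is semistable at the primes above `v` -/
def Tame (L : Type) [Field L] [NumberField L] [Algebra K L] (a b : L)
    (v : HeightOneSpectrum (𝓞 K)) : Prop :=
  Squarefree (v.asIdeal.map (algebraMap (𝓞 K) (𝓞 L))) ∧
    ∀ w : HeightOneSpectrum (𝓞 L), w.asIdeal ∣ v.asIdeal.map (algebraMap (𝓞 K) (𝓞 L)) →
      Semistable a b w

/-- The lower bound in all finite extensions `L` of `K`. -/
def InAllExtensions (η C : ℝ) (j : K) : Prop :=
  ∀ (L : Type) [Field L] [NumberField L] [Algebra K L] (a b : L), 4 * a ^ 3 + 27 * b ^ 2 ≠ 0 →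
    jInv a b = algebraMap K L j →
    ∀ R : Finset (HeightOneSpectrum (𝓞 K)), (∀ v, SimplePole j v → v ∉ R → Tame L a b v) →
    ∀ (g : ℕ) (M : Matrix (Fin g) (Fin g) ℤ), (M.map (Int.cast : ℤ → ℝ)).PosDef →
    ∀ P : Fin g → SPt a b, P ≠ 0 →
      (1 / 12 - η) * hj j -
        7 / 24 * ((∑ v ∈ R, Real.log (Ideal.absNorm v.asIdeal)) / Module.finrank ℚ K) - C ≤
        canM M P

variable (K)

/-- the invariants of absolute height at most `B` -/
def Inv (B : ℝ) : Set K := {j | j ≠ 0 ∧ j ≠ 1728 ∧ hj j ≤ Real.log B}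

end Defs

open Pool.Agent.Y733.UD Pool.Agent.Y733.LS Pool.Agent.W223.AK Pool.Agent.H691R3
open Pool.Agent.T9h57.LS

section Aux

variable {K : Type} [Field K] [NumberField K]

theorem n_pos : (0 : ℝ) < Module.finrank ℚ K := by
  linarith [finrank_one_le K]

theorem hj_eq (j : K) : Module.finrank ℚ K * hj j = ht j := by
  have hn := n_pos (K := K)
  unfold hj
  rw [mul_div_cancel₀ _ hn.ne', logHeight_eq, ht_eq_Sa]

theorem ncard_le {S : Set K} {b : ℝ} (h : ∀ E : Finset K, (E : Set K) ⊆ S → (E.card : ℝ) ≤ b) :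
    S.Finite ∧ (S.ncard : ℝ) ≤ b := by
  have hfin : S.Finite := by
    by_contra hinf
    obtain ⟨t, ht, hcard⟩ := Set.Infinite.exists_subset_card_eq hinf (⌊b⌋₊ + 1)
    have h1 := h t ht
    rw [hcard] at h1
    have h2 := Nat.lt_floor_add_one b
    push_cast at h1
    linarith
  refine ⟨hfin, ?_⟩
  have h1 := h hfin.toFinset (by simp)
  rwa [← Set.ncard_eq_toFinset_card S hfin] at h1

theorem mem_Inv {B : ℝ} {j : K} (hj' : j ∈ Inv K B) :
    j ≠ 0 ∧ j ≠ 1728 ∧ ht j ≤ Module.finrank ℚ K * Real.log B := by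
  refine ⟨hj'.1, hj'.2.1, ?_⟩
  rw [← hj_eq]
  exact mul_le_mul_of_nonneg_left hj'.2.2 n_pos.le

theorem fin_Inv (B : ℝ) : (Inv K B).Finite := by
  refine (NumberField.finite_setOfPred_logHeight₁_le (K := K)
    (Module.finrank ℚ K * Real.log B)).subset ?_
  intro j hj'
  have h := (mem_Inv hj').2.2
  rw [Set.mem_ofPred_eq, logHeight_eq, ← ht_eq_Sa]
  exact h

open Classical in
theorem ext_of {η : ℝ} (hη : 0 < η) (hη1 : η < 1 / 2) {j : K} (h0 : j ≠ 0) (h1 : j ≠ 1728)
    (hsp : (1 - η) * ht j ≤ sp j) : InAllExtensions η C5 j := by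
  intro L _ _ _ a b hD hj' R hR g M hM P hP
  have hn := n_pos (K := K)
  have hN := n_pos (K := L)
  have hC := C5_nonneg
  have e : jj a b = algebraMap K L j := hj'
  have ha : a ≠ 0 := by
    rintro rfl
    apply h0
    have h2 : algebraMap K L j = 0 := by
      rw [← hj']
      unfold jInv
      simp
    exact (FaithfulSMul.algebraMap_eq_zero_iff K L).1 h2
  have hb : b ≠ 0 := by
    rintro rfl
    apply h1
    have h3 := jj_sub a 0 hD
    rw [e] at h3
    have h4 : algebraMap K L (j - 1728) = 0 := by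
      rw [map_sub, map_ofNat, h3]
      simp
    have h5 := (FaithfulSMul.algebraMap_eq_zero_iff K L).1 h4
    linear_combination h5
  have hl := all_powers' (a := a) (b := b) hD (fun Q hQ => chat_ext ha hb hD e hη.le hη1.le hsp R
    (fun v h2 h3 => (hR v h2 h3).1)
    (fun v h2 h3 w hw => (hR v h2 h3).2 w (mem_above.1 hw)) hQ) M hM hP
  have hc : canM M P = chatM M P / (2 * Module.finrank ℚ L) := rfl
  have hdeg : (Module.finrank ℚ L : ℝ) = Module.finrank ℚ K * Module.finrank K L := by
    exact_mod_cast (Module.finrank_mul_finrank ℚ K L).symm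
  have hm : (0 : ℝ) < Module.finrank K L := by
    by_contra hcon
    have h6 : (Module.finrank K L : ℝ) = 0 := le_antisymm (not_lt.1 hcon) (Nat.cast_nonneg _)
    rw [hdeg, h6, mul_zero] at hN
    exact lt_irrefl _ hN
  rw [hc, le_div_iff₀ (by positivity)]
  refine le_trans ?_ hl
  have hH := hj_eq j
  have hH0 : 0 ≤ ht j := ht_nonneg j
  have hρ : (∑ v ∈ R, Real.log (Nv v)) =
      Module.finrank ℚ K * ((∑ v ∈ R, Real.log (Ideal.absNorm v.asIdeal)) /
        Module.finrank ℚ K) := by
    rw [mul_div_cancel₀ _ hn.ne']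
    rfl
  rw [hρ, ← hH]
  rw [← hH] at hH0
  have hhj : 0 ≤ hj j := by
    by_contra hcon
    push Not at hcon
    have := mul_neg_of_pos_of_neg hn hcon
    linarith
  generalize (∑ v ∈ R, Real.log (Ideal.absNorm v.asIdeal : ℝ)) / Module.finrank ℚ K = ρ
  have e1 : ((1 / 12 - η) * hj j - 7 / 24 * ρ - C5) * (2 * (Module.finrank ℚ L : ℝ)) =
      Module.finrank K L * ((1 / 6 - η) * (Module.finrank ℚ K * hj j) -
        7 / 12 * (Module.finrank ℚ K * ρ)) - Module.finrank ℚ L * C5 -
      (η * hj j * Module.finrank ℚ L + Module.finrank ℚ L * C5) := by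
    rw [hdeg]
    ring
  rw [e1]
  have : 0 ≤ η * hj j * Module.finrank ℚ L + Module.finrank ℚ L * C5 := by positivity
  linarith

/-- the number of exceptional invariants -/
theorem part_one {η ε : ℝ} (hη0 : 0 < η) (hη : η < 1 / 2) (hε : 0 < ε) : ∃ D : ℝ, 0 < D ∧
    ∀ (K : Type) [Field K] [NumberField K] (B : ℝ), 1 ≤ B →
      (Inv K B).Finite ∧
      (({j ∈ Inv K B | ¬ InAllExtensions η C5 j}.ncard : ℕ) : ℝ) ≤
        (D * B ^ (2 - η / 2 + ε)) ^ Module.finrank ℚ K := by
  obtain ⟨A, hA, h⟩ := nice_count hη0 hη hε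
  refine ⟨Real.exp A, Real.exp_pos _, ?_⟩
  intro K _ _ B hB
  have hB0 : 0 < B := by linarith
  refine ⟨fin_Inv B, ?_⟩
  refine (ncard_le fun E hE => ?_).2
  refine (h K (Module.finrank ℚ K * Real.log B) E
    (mul_nonneg n_pos.le (Real.log_nonneg hB)) ?_).trans (le_of_eq ?_)
  · intro j hj'
    obtain ⟨h1, h2⟩ := hE (Finset.mem_coe.2 hj')
    obtain ⟨h3, h4, h5⟩ := mem_Inv h1
    exact ⟨h3, h4, h5, fun hN => h2 (ext_of hη0 hη h3 h4 hN.2.1)⟩
  · rw [Real.rpow_def_of_pos hB0, ← Real.exp_add, ← Real.exp_nat_mul]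
    congr 1
    ring

open Classical in
/-- no torsion -/
theorem part_two {C η : ℝ} {j : K} (hj' : InAllExtensions η C j) (L : Type) [Field L]
    [NumberField L] [Algebra K L] (a b : L) (hD : 4 * a ^ 3 + 27 * b ^ 2 ≠ 0)
    (hab : jInv a b = algebraMap K L j) (R : Finset (HeightOneSpectrum (𝓞 K)))
    (hR : ∀ v, SimplePole j v → v ∉ R → Tame L a b v)
    (hlt : 7 / 24 * ((∑ v ∈ R, Real.log (Ideal.absNorm v.asIdeal)) / Module.finrank ℚ K) + C <
      (1 / 12 - η) * hj j) (P : SPt a b) (hP : IsOfFinAddOrder P) : P = 0 := by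
  by_contra hne
  set P' : Fin 1 → SPt a b := fun _ => P with hP'
  have h1 := hj' L a b hD hab R hR 1 1 (by
    have : (Matrix.map (1 : Matrix (Fin 1) (Fin 1) ℤ) (Int.cast : ℤ → ℝ)) = 1 := by
      ext i j
      fin_cases i
      fin_cases j
      simp
    rw [this]
    exact Matrix.PosDef.one) P' (by
      intro h0
      exact hne (congrFun h0 0))
  have h2 : IsOfFinAddOrder P' := by
    rw [isOfFinAddOrder_iff_nsmul_eq_zero] at hP ⊢
    obtain ⟨m, hm, hm'⟩ := hP
    refine ⟨m, hm, ?_⟩
    funext i
    rw [hP']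
    exact hm'
  have h : chatM (1 : Matrix (Fin 1) (Fin 1) ℤ) P' = 0 := chatM_tors hD 1 h2
  unfold canM at h1
  rw [h, zero_div] at h1
  linarith

theorem self_up (v : Pr K) : up K v = v.asIdeal := by
  unfold up
  apply le_antisymm
  · rw [Ideal.map_le_iff_le_comap]
    intro x hx
    exact hx
  · intro x hx
    exact Ideal.mem_map_of_mem (algebraMap (𝓞 K) (𝓞 K)) hx

open Classical in
/-- the constant is optimal -/
theorem part_three (j : K) (h0 : j ≠ 0) (h1 : j ≠ 1728) :
    ∃ a b : K, 4 * a ^ 3 + 27 * b ^ 2 ≠ 0 ∧ jInv a b = j ∧ (∀ v, SimplePole j v → Tame K a b v) ∧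
      ∃ P : SPt a b, P ≠ 0 ∧ can P ≤ 1 / 12 * hj j + C5 := by
  have hn := n_pos (K := K)
  have hC := C5_nonneg
  have ht0 : tj j ≠ 0 := tj_ne h0 h1
  have h1' : (1728 : K) - j ≠ 0 := fun h => h1 (by linear_combination -h)
  set t := tj j with htd
  have hrr : 4 * t + 27 ≠ 0 := by
    have e : 4 * t + 27 = 46656 / (1728 - j) := by
      rw [htd]
      unfold tj
      field_simp
      ring
    rw [e]
    exact div_ne_zero (by norm_num) h1'
  have ha : t ^ 3 ≠ 0 := pow_ne_zero _ ht0
  have hb : t ^ 4 ≠ 0 := pow_ne_zero _ ht0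
  have hD : dl (t ^ 3) (t ^ 4) ≠ 0 := by
    have e : dl (t ^ 3) (t ^ 4) = t ^ 8 * (4 * t + 27) := by
      unfold dl
      ring
    rw [e]
    exact mul_ne_zero (pow_ne_zero _ ht0) hrr
  have htt : tt (t ^ 3) (t ^ 4) = t := by
    unfold tt
    field_simp
  have hjj : jj (t ^ 3) (t ^ 4) = j := by
    obtain ⟨e1, e2⟩ := tt_j ha hb hD
    apply tj_inj (fun h => e2 (by rw [h]; ring)) h1
    rw [← htd]
    exact e1.symm.trans htt
  have hns : (sw (t ^ 3) (t ^ 4)).toAffine.Nonsingular 0 (t ^ 2) := by
    rw [Affine.nonsingular_iff]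
    refine ⟨sw_eqn.2 (by ring), Or.inr ?_⟩
    simp only [sw]
    intro h2
    have h3 : (2 : K) * t ^ 2 = 0 := by linear_combination h2
    rcases mul_eq_zero.1 h3 with h4 | h4
    · norm_num at h4
    · exact ht0 (pow_eq_zero_iff two_ne_zero |>.1 h4)
  refine ⟨t ^ 3, t ^ 4, hD, hjj, ?_, Affine.Point.some 0 (t ^ 2) hns, (by intro h9; cases h9), ?_⟩
  · intro v hv
    have hv' : Sp j v := hv
    refine ⟨?_, ?_⟩
    · show Squarefree (up K v)
      rw [self_up]
      exact v.prime.irreducible.squarefree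
    · intro w hw
      replace hw : w.asIdeal ∣ up K v := hw
      rw [self_up] at hw
      have hwv : w = v := by
        apply HeightOneSpectrum.ext
        have h2 : v.asIdeal ≤ w.asIdeal := Ideal.dvd_iff_le.1 hw
        exact (v.isMaximal.eq_of_le w.isPrime.ne_top h2).symm
      subst hwv
      have hv2 : Sp (jj (t ^ 3) (t ^ 4)) w := by rw [hjj]; exact hv'
      obtain ⟨f1, f2⟩ := sp_facts hD hv2
      have htv : fv w t = 1 := by
        rw [map_pow, map_pow, ← pow_mul, ← pow_mul] at f1
        have h3 : 0 < fv w t := (fv w).pos ht0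
        have h4 : fv w t ^ 8 * fv w t = fv w t ^ 8 * 1 := by
          have : fv w t ^ (3 * 3) = fv w t ^ (4 * 2) := f1
          calc fv w t ^ 8 * fv w t = fv w t ^ (3 * 3) := by ring
            _ = fv w t ^ (4 * 2) := this
            _ = _ := by ring
        exact mul_left_cancel₀ (pow_pos h3 8).ne' h4
      refine ⟨1, ?_, ?_⟩
      · show fv w (1 ^ 4 * t ^ 3) = 1
        rw [one_pow, one_mul, map_pow, htv, one_pow]
      · show fv w (1 ^ 6 * t ^ 4) = 1
        rw [one_pow, one_mul, map_pow, htv, one_pow]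
  · have h2 := up_zero ha hb hD hns
    rw [hjj] at h2
    have hc : can (Affine.Point.some 0 (t ^ 2) hns : SPt (t ^ 3) (t ^ 4)) =
      chat (Affine.Point.some 0 (t ^ 2) hns : SPt (t ^ 3) (t ^ 4)) /
        (2 * Module.finrank ℚ K) := rfl
    rw [hc, div_le_iff₀ (by positivity)]
    have e5 : (1 / 12 * hj j + C5) * (2 * (Module.finrank ℚ K : ℝ)) =
        1 / 6 * (Module.finrank ℚ K * hj j) + 2 * (Module.finrank ℚ K * C5) := by
      ring
    have h3 : 0 ≤ Module.finrank ℚ K * C5 := by positivity
    rw [e5, hj_eq]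
    linarith

end Aux

open Classical in
/-- **Main theorem.** There is an absolute constant `C` such that:
(1) For all `0 < η < 1/2` and `ε > 0` there is `D` such that, for every number field `K` of degree
`n` and every `B ≥ 1`, all `j ∈ K` of absolute height at most `B`, `j ≠ 0, 1728`, up to at most
`(D * B ^ (2 - η / 2 + ε)) ^ n` exceptions, satisfy `InAllExtensions η C j`: the lower bound
`(1/12 - η) h(j) - (7/24) ρ - C` for the heights of all points `P ≠ 0` of all powers of all curves
of invariant `j` over all finite extensions `L` of `K`.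
(2) If `(7/24) ρ + C < (1/12 - η) h(j)`, these curves have no torsion points over `L`.
(3) The constant `1/12` is optimal: for all `K` and all `j ∈ K`, `j ≠ 0, 1728`, there is a curve
over `K` of invariant `j`, semistable at all simple poles of `j`, with a point `P ≠ 0` over `K` of
height at most `h(j) / 12 + C`. -/
theorem result : ∃ C : ℝ,
    (∀ η ε : ℝ, 0 < η → η < 1 / 2 → 0 < ε → ∃ D : ℝ, 0 < D ∧
      ∀ (K : Type) [Field K] [NumberField K] (B : ℝ), 1 ≤ B →
        (Inv K B).Finite ∧
        (({j ∈ Inv K B | ¬ InAllExtensions η C j}.ncard : ℕ) : ℝ) ≤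
          (D * B ^ (2 - η / 2 + ε)) ^ Module.finrank ℚ K) ∧
    (∀ (K : Type) [Field K] [NumberField K] (η : ℝ) (j : K), InAllExtensions η C j →
      ∀ (L : Type) [Field L] [NumberField L] [Algebra K L] (a b : L),
      4 * a ^ 3 + 27 * b ^ 2 ≠ 0 → jInv a b = algebraMap K L j →
      ∀ R : Finset (HeightOneSpectrum (𝓞 K)), (∀ v, SimplePole j v → v ∉ R → Tame L a b v) →
      7 / 24 * ((∑ v ∈ R, Real.log (Ideal.absNorm v.asIdeal)) / Module.finrank ℚ K) + C <
        (1 / 12 - η) * hj j →
      ∀ P : SPt a b, IsOfFinAddOrder P → P = 0) ∧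
    (∀ (K : Type) [Field K] [NumberField K] (j : K), j ≠ 0 → j ≠ 1728 →
      ∃ a b : K, 4 * a ^ 3 + 27 * b ^ 2 ≠ 0 ∧ jInv a b = j ∧
        (∀ v, SimplePole j v → Tame K a b v) ∧
        ∃ P : SPt a b, P ≠ 0 ∧ can P ≤ 1 / 12 * hj j + C) ∧
    (∀ (K : Type) [Field K] [NumberField K] (a b : K), 4 * a ^ 3 + 27 * b ^ 2 ≠ 0 →
      ∀ P : SPt a b, Filter.Tendsto (fun k : ℕ => sht ((2 ^ k : ℕ) • P) / 4 ^ k) Filter.atTop
        (nhds (chat P))) :=
  ⟨C5, fun _ _ h1 h2 h3 => part_one h1 h2 h3, fun _ _ _ _ _ hj' L _ _ _ a b hD hab R hR hlt P hP =>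
      part_two hj' L a b hD hab R hR hlt P hP,
    fun _ _ _ j h0 h1 => part_three j h0 h1, fun _ _ _ _ _ hD P => (chat_spec hD).1 P⟩

end Pool.Agent.Results.MP_9a3c31_nt.AllExtensions
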