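import Pool.Agent.N790.CM.C
import Pool.Agent.T9h59.LS.Count

/-!
# Lang and Silverman's lower bound for all elliptic curves with `j` of height near all multiples of Carmichael's function

Let `K` be a number field, `H_K(j)` the multiplicative height relative to `K`, `0 < η < 1/2` and `b > 0`.
For almost all `m` (all `m ≤ x` but `x / (log x)^U`) and EVERY multiple `w ≤ x^B` of Carmichael's function `λ(m)`,
ALL `j ∈ K`, `j ≠ 0, 1728`, with `|H_K(j)^b - G w| ≤ w^θ` satisfy the bound `LangSilverman` with the absolute constant
`(1 - 2 η) / 100`, for all elliptic curves over `K` of invariant `j` (all twists), their powers and all polarizations.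
Here `θ ≥ 0`, `B ≥ 1` and `B (d (2 - η / 2) / b + θ) < 1`, and `G` has steps bounded below by a positive constant and growth at most
`v^d`. More generally `w` is any common multiple of the values `f(p)`, `p` running through the large primes which divide `m`
exactly once, where `f` takes each positive value at boundedly many primes.

A single `m` has a power of `x` multiples of this kind, and a single `w ≤ x^B` can be a multiple of `λ(m)` for more than
`x^(1 - ε)` numbers `m ≤ x`. So this does not follow from the number of the exceptions.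

The starting theorem `AllFieldsAllTwists` of this problem bounds the number of the exceptional invariants. Tool `N790/CM` (starting library).
-/

set_option autoImplicit false

namespace Pool.Agent.Results.MP_9a3c31_nt.CarmichaelMultiples

open NumberField Finset
open Pool.Agent.Results.MP_9a3c31_nt.AllFieldsAllTwists (LangSilverman)
open Pool.Agent.T9h59.LS (Exc mheight count)
open Pool.Agent.N733.TG (Expanding expanding_pow)
open Pool.Agent.N790.CM (FewTimes Carries keep_windows fewTimes_pred pred_dvd_carmichael)

/-- **Lang and Silverman's lower bound for all elliptic curves with `j` of height near the multiples of Carmichael's function.** Let `K` be a number field, `H_K(j)` the multiplicative height relative to `K`, `0 < η < 1/2` and `b > 0`.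
Let `G` have steps `≥ a > 0` and growth at most `v^d`, let `θ ≥ 0`, `B ≥ 1`, `B (d (2 - η / 2) / b + θ) < 1`, and let `f` take each
positive value at most `T` times at the primes. For all `U` and all large `x`, for all `m ≤ x` but `x / (log x)^U`: for EVERY
`w` with `1 ≤ w ≤ x^B` and `f(p) ∣ w` for all primes `p > exp (√(log x))` which divide `m` exactly once,
ALL `j ∈ K`, `j ≠ 0, 1728`, with `|H_K(j)^b - G w| ≤ w^θ` satisfy the bound `LangSilverman` with the absolute constant
`(1 - 2 η) / 100`, for all elliptic curves over `K` of invariant `j` (all twists), their powers and all polarizations.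
The function `f(p) = p - 1` takes each value at most once, and every multiple of Carmichael's function `λ(m)` is divisible by
`p - 1` for all `p ∣ m`; and `α v^d` with `α > 0`, `d ≥ 1` is an example of `G`. -/
theorem result :
    (∀ (K : Type) [Field K] [NumberField K] (η b : ℝ), 0 < η → η < 1 / 2 → 0 < b →
      ∀ (G : ℕ → ℝ) (d : ℝ), Expanding G d → ∀ θ B : ℝ, 0 ≤ θ → 1 ≤ B → B * (d * ((2 - η / 2) / b) + θ) < 1 →
      ∀ (f : ℕ → ℕ) (T : ℕ), FewTimes f T → ∀ U : ℕ, ∃ N₀ : ℕ, ∀ N : ℕ, N₀ ≤ N →
      ({m : ℕ | 1 ≤ m ∧ m ≤ N ∧ ¬ ∀ w : ℕ, 1 ≤ w → (w : ℝ) ≤ (N : ℝ) ^ B →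
          Carries f (Real.exp √(Real.log N)) m w →
          ∀ j : K, j ≠ 0 → j ≠ 1728 → |mheight j ^ b - G w| ≤ (w : ℝ) ^ θ → LangSilverman ((1 - 2 * η) / 100) j}.ncard : ℝ) ≤
        N / Real.log N ^ U) ∧
    (FewTimes (fun p => p - 1) 1 ∧
      ∀ (y : ℝ) (m w : ℕ), ArithmeticFunction.carmichael m ∣ w → Carries (fun p => p - 1) y m w) ∧
    ∀ α d : ℝ, 0 < α → 1 ≤ d → Expanding (fun v => α * (v : ℝ) ^ d) d := by
  refine ⟨fun K _ _ η b hη0 hη hb G d hG θ B hθ hB h1 f T hf U => ?_,
    ⟨fewTimes_pred, fun y m w h p hp _ hpm _ => (pred_dvd_carmichael hp hpm).trans h⟩,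
    fun α d hα hd => expanding_pow hα hd⟩
  refine (keep_windows (Exc K η b) (fun x => x) hG (s := ((2 - η / 2) / b)) (div_nonneg (by linarith) hb.le) hθ hB h1
    (fun ε hε => count K hη0 hη hb ε hε)).mono ?_ f T hf U
  intro w _ hw
  by_contra hcon
  push Not at hcon
  obtain ⟨j, hj0, hj1, hnear, hbad⟩ := hcon
  exact hw (mheight j ^ b) ⟨j, hj0, hj1, hbad, rfl⟩ hnear

end Pool.Agent.Results.MP_9a3c31_nt.CarmichaelMultiples
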