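import Mathlib
import Pool.Agent.T9h57.LS.Ct

/-!
# The optimal constant in Lang and Silverman's lower bound, and the smallest canonical heights, for
# almost all invariants `j` and all twists, over all number fields of all degrees

All constants below are absolute: they depend neither on the number field `K` nor on its degree
`n`, nor on the curve, its twist, the power `g` or the polarization.

`SPt a b` is the group of the rational points over `K` of the elliptic curve
`E : y² = x³ + a x + b`, `sht P` the height of the `x`-coordinate of `P` (relative to `K`), `chat P`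
the limit of `sht (2 ^ k P) / 4 ^ k`, and `chatM M P` the corresponding height of the point `P` of
`E ^ g` for the symmetric positive definite matrix `M`. The absolute canonical heights (with respect
to the divisor `(O)`) are `can P = chat P / (2 n)` and `canM M P = chatM M P / (2 n)`. The height
`falt a b` is `1 / (12 n)` times the sum of the logarithm of the norm of the minimal discriminant of
`E` (the minimum over the models `y² = x³ + u⁴ a x + u⁶ b` integral at `v`, for each `v`) and of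
`log⁺ |j|` over the infinite places: it is the relative Faltings height of `E / K` up to a constant
and to `(1/2) log⁺` of the logarithms of the `|j|` at the infinite places.

For all `j` in `K` of absolute height at most `B`, up to at most `(C * B ^ (2 - η / 2 + ε)) ^ n`
exceptions (the number of all these `j` is `B ^ (2 n)`, up to factors `B ^ (n ε)` and depending on
`K`), one has for ALL curves `E / K` of invariant `j`, that is for all twists: all points `P ≠ 0` of
all powers of `E` have canonical height at least `(1/12) falt E - η h(j) - C` and at least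
`(1/12 - η) h(j) - C`. Both constants `1/12` are optimal: there is one twist with a point `P` with
`x(P) = 0`, whose height is at most `h(j) / 12 + C`, and then `falt E` is at least
`(1 - η) h(j) - C`. All other points of all twists have height at least `(1/8 - η) h(j) - C` and at
least `(1/12) falt E + (1/24 - η) h(j) - C`. The first bound is attained, up to `η h(j) + C`, by a
point with `2 a x + 3 b = 0` on one twist, and all points with `x (2 a x + 3 b) ≠ 0` of all twists
have height at least `(5/24 - η) h(j) - C`, which is again attained by a point on one twist. In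
particular, for every `θ > 0` and all `j` but a proportion `B ^ (-κ n)`, uniformly in all `K` and
`B ≥ (B0 δ_K) ^ B0`, the bound `canM M P ≥ (1/12 - θ) (falt E + (1/2) log δ_K)` holds for all twists.
The right side multiplied by `n` is the Faltings height of the Weil restriction of `E` to `ℚ`.
-/

set_option autoImplicit false
set_option linter.unusedSectionVars false

namespace Pool.Agent.Results.MP_9a3c31_nt.OptimalConstant

open NumberField IsDedekindDomain Pool.Agent.TH942 Pool.Agent.TH910.LS WeierstrassCurve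

section Defs

variable {K : Type} [Field K] [NumberField K]

/-- the `j`-invariant of `y² = x³ + a x + b` -/
noncomputable def jInv (a b : K) : K := 6912 * a ^ 3 / (4 * a ^ 3 + 27 * b ^ 2)

/-- the absolute logarithmic height -/
noncomputable def hj (j : K) : ℝ := Height.logHeight₁ j / Module.finrank ℚ K

/-- The contribution of `v` to the logarithm of the norm of the minimal discriminant: the minimum
of `- log |u¹² (4 a³ + 27 b²)|` over the models `y² = x³ + u⁴ a x + u⁶ b` which are integral at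
`v`. -/
noncomputable def minDisc (a b : K) (v : HeightOneSpectrum (𝓞 K)) : ℝ :=
  sInf {r | ∃ u : K, u ≠ 0 ∧ FinitePlace.mk v (u ^ 4 * a) ≤ 1 ∧
    FinitePlace.mk v (u ^ 6 * b) ≤ 1 ∧
    r = -Real.log (FinitePlace.mk v (u ^ 12 * (4 * a ^ 3 + 27 * b ^ 2)))}

/-- the height of the curve -/
noncomputable def falt (a b : K) : ℝ :=
  (∑ᶠ v : HeightOneSpectrum (𝓞 K), minDisc a b v +
    ∑ w : InfinitePlace K, (w.mult : ℝ) * Real.log (max (w (jInv a b)) 1)) /
    (12 * Module.finrank ℚ K)

open Classical in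
/-- the absolute canonical height of a point -/
noncomputable def can {a b : K} (P : SPt a b) : ℝ := chat P / (2 * Module.finrank ℚ K)

open Classical in
/-- the absolute canonical height of a point of a power -/
noncomputable def canM {a b : K} {g : ℕ} (M : Matrix (Fin g) (Fin g) ℤ) (P : Fin g → SPt a b) : ℝ :=
  chatM M P / (2 * Module.finrank ℚ K)

/-- the lower bounds for all curves of invariant `j` and all points of all powers -/
def Lower (η C : ℝ) (j : K) : Prop :=
  ∀ a b : K, 4 * a ^ 3 + 27 * b ^ 2 ≠ 0 → jInv a b = j →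
    (1 / 2 - η) * hj j - C ≤ falt a b ∧
    ∀ (g : ℕ) (M : Matrix (Fin g) (Fin g) ℤ), (M.map (Int.cast : ℤ → ℝ)).PosDef →
    ∀ P : Fin g → SPt a b, P ≠ 0 →
      (1 / 12 - η) * hj j - C ≤ canM M P ∧ 1 / 12 * falt a b - η * hj j - C ≤ canM M P

/-- the points with `x = 0`, and the others -/
def Points (η C : ℝ) (j : K) : Prop :=
  ∀ a b : K, 4 * a ^ 3 + 27 * b ^ 2 ≠ 0 → jInv a b = j →
    ∀ (x y : K) (h : (sw a b).toAffine.Nonsingular x y),
      (x = 0 → can (Affine.Point.some x y h : SPt a b) ≤ 1 / 12 * hj j + C ∧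
        (1 - η) * hj j - C ≤ falt a b) ∧
      (x ≠ 0 → (1 / 8 - η) * hj j - C ≤ can (Affine.Point.some x y h : SPt a b) ∧
        1 / 12 * falt a b + (1 / 24 - η) * hj j - C ≤ can (Affine.Point.some x y h : SPt a b)) ∧
      (x ≠ 0 → 2 * a * x + 3 * b ≠ 0 →
        (5 / 24 - η) * hj j - C ≤ can (Affine.Point.some x y h : SPt a b))

/-- the three smallest heights are attained -/
def Families (η C : ℝ) (j : K) : Prop :=
  (∃ (a b x y : K) (_ : (sw a b).toAffine.Nonsingular x y),
    4 * a ^ 3 + 27 * b ^ 2 ≠ 0 ∧ jInv a b = j ∧ x = 0) ∧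
  (∃ (a b x y : K) (h : (sw a b).toAffine.Nonsingular x y),
    4 * a ^ 3 + 27 * b ^ 2 ≠ 0 ∧ jInv a b = j ∧ x ≠ 0 ∧ 2 * a * x + 3 * b = 0 ∧
      can (Affine.Point.some x y h : SPt a b) ≤ (1 / 8 + η) * hj j + C) ∧
  (∃ (a b x y : K) (h : (sw a b).toAffine.Nonsingular x y),
    4 * a ^ 3 + 27 * b ^ 2 ≠ 0 ∧ jInv a b = j ∧ x ≠ 0 ∧ 2 * a * x + 3 * b ≠ 0 ∧
      can (Affine.Point.some x y h : SPt a b) ≤ (5 / 24 + η) * hj j + C)

variable (K)

/-- the root discriminant `δ_K` -/
noncomputable def rootDisc : ℝ :=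
  |(NumberField.discr K : ℝ)| ^ (1 / (Module.finrank ℚ K : ℝ))

/-- the invariants of absolute height at most `B` -/
def Inv (B : ℝ) : Set K := {j | j ≠ 0 ∧ j ≠ 1728 ∧ hj j ≤ Real.log B}

variable {K}

/-- The lower bound of Lang and Silverman with the constant `1/12 - θ` for all twists, also for
their Weil restrictions, and its optimality. -/
def Opt (θ : ℝ) (j : K) : Prop :=
  (∀ a b : K, 4 * a ^ 3 + 27 * b ^ 2 ≠ 0 → jInv a b = j →
    ∀ (g : ℕ) (M : Matrix (Fin g) (Fin g) ℤ), (M.map (Int.cast : ℤ → ℝ)).PosDef →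
    ∀ P : Fin g → SPt a b, P ≠ 0 →
      (1 / 12 - θ) * (falt a b + 1 / 2 * Real.log (rootDisc K)) ≤ canM M P) ∧
  (∃ a b : K, 4 * a ^ 3 + 27 * b ^ 2 ≠ 0 ∧ jInv a b = j ∧
    ∃ P : SPt a b, P ≠ 0 ∧ can P ≤ (1 / 12 + θ) * falt a b)

end Defs

open Pool.Agent.Y733.UD Pool.Agent.Y733.LS Pool.Agent.W223.AK Pool.Agent.H691R3
open Pool.Agent.T9h57.LS

section Aux

variable {K : Type} [Field K] [NumberField K]

theorem n_pos : (0 : ℝ) < Module.finrank ℚ K := by
  linarith [finrank_one_le K]

theorem rootDisc_eq : rootDisc K = Real.exp (rd K) := by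
  unfold rootDisc rd
  have h : (0 : ℝ) < |(NumberField.discr K : ℝ)| := by linarith [one_le_disc K]
  rw [Real.rpow_def_of_pos h]
  congr 1
  ring

theorem hj_eq (j : K) : Module.finrank ℚ K * hj j = ht j := by
  have hn := n_pos (K := K)
  unfold hj
  rw [mul_div_cancel₀ _ hn.ne', logHeight_eq, ht_eq_Sa]

theorem ncard_le {S : Set K} {b : ℝ} (h : ∀ E : Finset K, (E : Set K) ⊆ S → (E.card : ℝ) ≤ b) :
    S.Finite ∧ (S.ncard : ℝ) ≤ b := by
  have hfin : S.Finite := by
    by_contra hinf
    obtain ⟨t, ht, hcard⟩ := Set.Infinite.exists_subset_card_eq hinf (⌊b⌋₊ + 1)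
    have h1 := h t ht
    rw [hcard] at h1
    have h2 := Nat.lt_floor_add_one b
    push_cast at h1
    linarith
  refine ⟨hfin, ?_⟩
  have h1 := h hfin.toFinset (by simp)
  rwa [← Set.ncard_eq_toFinset_card S hfin] at h1

theorem le_ncard {S : Set K} (hS : S.Finite) {b : ℝ} {E : Finset K} (hE : (E : Set K) ⊆ S)
    (h : b ≤ E.card) : b ≤ (S.ncard : ℝ) := by
  refine h.trans ?_
  rw [← Set.ncard_coe_finset]
  exact_mod_cast Set.ncard_le_ncard hE hS

theorem mem_Inv {B : ℝ} {j : K} (hj' : j ∈ Inv K B) :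
    j ≠ 0 ∧ j ≠ 1728 ∧ ht j ≤ Module.finrank ℚ K * Real.log B := by
  refine ⟨hj'.1, hj'.2.1, ?_⟩
  rw [← hj_eq]
  exact mul_le_mul_of_nonneg_left hj'.2.2 n_pos.le

theorem fin_Inv (B : ℝ) : (Inv K B).Finite := by
  refine (NumberField.finite_setOfPred_logHeight₁_le (K := K)
    (Module.finrank ℚ K * Real.log B)).subset ?_
  intro j hj'
  have h := (mem_Inv hj').2.2
  rw [Set.mem_ofPred_eq, logHeight_eq, ← ht_eq_Sa]
  exact h

theorem one_mem {B : ℝ} (hB : 1 ≤ B) : (1 : K) ∈ Inv K B := by
  refine ⟨one_ne_zero, by norm_num, ?_⟩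
  unfold hj
  rw [Height.logHeight₁_one, zero_div]
  exact Real.log_nonneg hB

theorem one_le_ncard {B : ℝ} (hB : 1 ≤ B) : (1 : ℝ) ≤ ((Inv K B).ncard : ℝ) := by
  have h := (Set.ncard_pos (fin_Inv (K := K) B)).2 ⟨1, one_mem hB⟩
  exact_mod_cast h

/-- logarithmic form of the lower bound for the number of all invariants -/
theorem inv_log {ε : ℝ} (hε : 0 < ε) : ∃ A : ℝ, 0 ≤ A ∧
    ∀ (K : Type) [Field K] [NumberField K] (B : ℝ), 0 < B → Real.log 16 + rd K / 2 ≤ Real.log B →
      Real.exp (Module.finrank ℚ K * ((2 - ε) * Real.log B - (2 + ε) * rd K - A)) ≤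
        ((Inv K B).ncard : ℝ) := by
  classical
  set ε1 : ℝ := min (ε / 4) 1 with hε1
  have h1 : 0 < ε1 := lt_min (by positivity) one_pos
  have h2 : ε1 ≤ 1 := min_le_right _ _
  have h3 : 4 * ε1 ≤ ε := by
    have := min_le_left (ε / 4) 1
    rw [← hε1] at this
    linarith
  obtain ⟨A, hA, h⟩ := low_count h1 h2
  have hl2 : 0 ≤ Real.log 2 := Real.log_nonneg (by norm_num)
  refine ⟨A + Real.log 2, by positivity, ?_⟩
  intro K _ _ B hB hl
  have hn := n_pos (K := K)
  have hn1 := finrank_one_le K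
  have hrd := rd_nonneg K
  have hl16 : 0 ≤ Real.log 16 := Real.log_nonneg (by norm_num)
  have hl8 : Real.log 8 ≤ Real.log 16 := Real.log_le_log (by norm_num) (by norm_num)
  have hB1 : 1 ≤ B := by
    have : 0 ≤ Real.log B := by linarith
    by_contra hcon
    push Not at hcon
    have := Real.log_neg hB hcon
    linarith
  obtain ⟨E, hE, hcard⟩ := h K (Real.log B) (by linarith)
  have hsub : ((E.erase 1728 : Finset K) : Set K) ⊆ Inv K B := by
    intro j hj'
    rw [Finset.mem_coe, Finset.mem_erase] at hj'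
    obtain ⟨h4, h5⟩ := hE j hj'.2
    refine ⟨h4.1, hj'.1, ?_⟩
    rw [← hj_eq] at h5
    exact le_of_mul_le_mul_left h5 hn
  have hc := le_ncard (fin_Inv B) hsub le_rfl
  have hc1 : (E.card : ℝ) ≤ ((E.erase 1728).card : ℝ) + 1 := by
    have := Finset.pred_card_le_card_erase (s := E) (a := (1728 : K))
    exact_mod_cast (by omega : E.card ≤ (E.erase 1728).card + 1)
  have hc2 := one_le_ncard (K := K) hB1
  have h5 : Real.exp (Module.finrank ℚ K * ((2 - 4 * ε1) * Real.log B - (2 + ε1) * rd K - A)) ≤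
      2 * ((Inv K B).ncard : ℝ) := by linarith
  have h6 : Real.exp (Module.finrank ℚ K * ((2 - ε) * Real.log B - (2 + ε) * rd K -
      (A + Real.log 2))) * 2 ≤
      Real.exp (Module.finrank ℚ K * ((2 - 4 * ε1) * Real.log B - (2 + ε1) * rd K - A)) := by
    have e2 : (2 : ℝ) = Real.exp (Real.log 2) := (Real.exp_log (by norm_num)).symm
    nth_rw 4 [e2]
    rw [← Real.exp_add]
    apply Real.exp_le_exp.2
    have h7 : (2 - ε) * Real.log B ≤ (2 - 4 * ε1) * Real.log B :=
      mul_le_mul_of_nonneg_right (by linarith) (by linarith)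
    have h8 : (2 + ε1) * rd K ≤ (2 + ε) * rd K := mul_le_mul_of_nonneg_right (by linarith) hrd
    have h9 : Module.finrank ℚ K * ((2 - ε) * Real.log B - (2 + ε) * rd K) ≤
        Module.finrank ℚ K * ((2 - 4 * ε1) * Real.log B - (2 + ε1) * rd K) :=
      mul_le_mul_of_nonneg_left (by linarith) hn.le
    nlinarith
  linarith

theorem ne_of_jInv {a b j : K} (h0 : j ≠ 0) (h1 : j ≠ 1728) (hD : 4 * a ^ 3 + 27 * b ^ 2 ≠ 0)
    (hj' : jInv a b = j) : a ≠ 0 ∧ b ≠ 0 := by
  constructor
  · rintro rfl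
    apply h0
    rw [← hj']
    unfold jInv
    simp
  · rintro rfl
    apply h1
    have h3 := jj_sub a 0 hD
    have e : jj a 0 = j := hj'
    rw [e] at h3
    have h4 : j - 1728 = 0 := by rw [h3]; simp
    linear_combination h4

/-- the archimedean part -/
theorem arch_le {η : ℝ} {j : K} (h : (1 - η) * ht j ≤ sp j) :
    ∑ w : InfinitePlace K, (w.mult : ℝ) * Real.log (max (w j) 1) ≤ η * ht j := by
  have h1 : ht j = ∑ w : InfinitePlace K, (w.mult : ℝ) * Real.log (max (w j) 1) +
      ∑ᶠ v : Pr K, lp (fv v) j := ht_eq_Sa j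
  have h2 : sp j ≤ ∑ᶠ v : Pr K, lp (fv v) j := by
    have : sp j = ∑ᶠ v : Pr K, spf j v := rfl
    rw [this]
    exact finsum_le_finsum' (Fs_spf j) (Fs_lp j) (spf_le_lp j)
  linarith

theorem arch_nonneg (j : K) :
    0 ≤ ∑ w : InfinitePlace K, (w.mult : ℝ) * Real.log (max (w j) 1) :=
  Finset.sum_nonneg fun w _ => mul_nonneg (Nat.cast_nonneg _)
    (Real.log_nonneg (le_max_right _ _))

theorem falt_eq (a b : K) : 12 * Module.finrank ℚ K * falt a b = md a b +
    ∑ w : InfinitePlace K, (w.mult : ℝ) * Real.log (max (w (jInv a b)) 1) := by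
  have hn := n_pos (K := K)
  unfold falt
  rw [mul_div_cancel₀ _ (by positivity)]
  rfl

theorem falt_nonneg {a b : K} (ha : a ≠ 0) (hb : b ≠ 0) : 0 ≤ falt a b := by
  have hn := n_pos (K := K)
  have h1 := falt_eq a b
  have h2 := md_nonneg ha hb
  have h3 := arch_nonneg (jInv a b)
  have h4 : 0 ≤ 12 * Module.finrank ℚ K * falt a b := by
    rw [h1]
    linarith
  by_contra hcon
  push Not at hcon
  have : 12 * Module.finrank ℚ K * falt a b < 0 := mul_neg_of_pos_of_neg (by positivity) hcon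
  linarith

end Aux

section Main

variable {K : Type} [Field K] [NumberField K]

open Classical in
theorem lower_of {η : ℝ} (hη : 0 < η) (hη1 : η < 1 / 2) {j : K} (h0 : j ≠ 0) (h1 : j ≠ 1728)
    (hN : Nice η j) : Lower η C5 j ∧ Points η C5 j := by
  obtain ⟨g1, g2, g3, g4⟩ := hN
  have hn := n_pos (K := K)
  have hC := C5_nonneg
  have harch := arch_le g2
  have harch0 := arch_nonneg j
  have hcurve : ∀ a b : K, 4 * a ^ 3 + 27 * b ^ 2 ≠ 0 → jInv a b = j → a ≠ 0 ∧ b ≠ 0 ∧
      jj a b = j ∧ tj j = tt a b := by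
    intro a b hD hj'
    obtain ⟨ha, hb⟩ := ne_of_jInv h0 h1 hD hj'
    have e : jj a b = j := hj'
    refine ⟨ha, hb, e, ?_⟩
    have := (tt_j ha hb hD).1
    rw [e] at this
    exact this.symm
  have hmd : ∀ a b : K, 4 * a ^ 3 + 27 * b ^ 2 ≠ 0 → jInv a b = j →
      6 * (1 - η) * ht j - Module.finrank ℚ K * C5 ≤ md a b := by
    intro a b hD hj'
    obtain ⟨ha, hb, e, et⟩ := hcurve a b hD hj'
    have h2 := md_low ha hb hD
    have h3 := ht_j_le ha hb hD
    rw [e, ← et] at h2
    rw [e, ← et] at h3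
    have h4 := ht_inv (tt_ne ha hb)
    rw [← et] at h4
    rw [h4] at g4
    obtain ⟨u1, u2, u3, u4, u5, u6, u7, u8, u9, u10, u11, e1, e2, e3, e4, e5, e6, e7, e8, e9, e10,
      e11, p1, p2, p3, p4, p5, p6, p7, p8, p9, p10, p11, hC⟩ := consts (K := K)
    rw [hC]
    rw [← e1] at h3
    have h5 : (1 - η) * ht j ≤ (1 - η) * ht (tj j) + u1 := by
      have : (1 - η) * ht j ≤ (1 - η) * (ht (tj j) + u1) :=
        mul_le_mul_of_nonneg_left h3 (by linarith)
      nlinarith
    linarith
  have hH : Module.finrank ℚ K * hj j = ht j := hj_eq j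
  have hH0 : 0 ≤ ht j := ht_nonneg j
  have hηH : 0 ≤ η * ht j := mul_nonneg hη.le hH0
  have hc0 : 0 ≤ Module.finrank ℚ K * C5 := by positivity
  constructor
  · intro a b hD hj'
    obtain ⟨ha, hb, e, et⟩ := hcurve a b hD hj'
    have hF := falt_eq a b
    rw [hj'] at hF
    refine ⟨?_, ?_⟩
    · have h2 := hmd a b hD hj'
      have e5 : 12 * (Module.finrank ℚ K : ℝ) * ((1 / 2 - η) * hj j - C5) =
          (6 - 12 * η) * (Module.finrank ℚ K * hj j) - 12 * (Module.finrank ℚ K * C5) := by ring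
      have h3 : 12 * (Module.finrank ℚ K : ℝ) * ((1 / 2 - η) * hj j - C5) ≤
          12 * (Module.finrank ℚ K : ℝ) * falt a b := by
        rw [e5, hH, hF]
        linarith
      exact le_of_mul_le_mul_left h3 (by positivity)
    · intro g M hM P hP
      have key : ∀ Q : SPt a b, Q ≠ 0 →
          (1 / 6 - 2 * η) * ht j - Module.finrank ℚ K * C5 ≤ chat Q ∧
          1 / 72 * md a b - 7 / 4 * η * ht j - Module.finrank ℚ K * C5 ≤ chat Q := by
        intro Q hQ
        obtain ⟨x, y, h, rfl⟩ := exists_coord Q hQ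
        have hP := no_two ha hb hD (by rw [e]; exact g1)
          (P := (Affine.Point.some x y h : SPt a b)) (by intro h9; cases h9)
        obtain ⟨k1, k2, k3⟩ := point_bounds ha hb hD hη.le (by linarith) (by rw [← et]; exact g3)
          (by rw [← et]; exact g4) (by rw [e]; exact g2) h hP
        rw [e] at k1 k2
        by_cases hx : x = 0
        · obtain ⟨k4, k5, _⟩ := k1 hx
          exact ⟨by linarith, by linarith⟩
        · obtain ⟨k4, k5⟩ := k2 hx
          exact ⟨by linarith, by linarith⟩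
      have hl1 := all_powers' (a := a) (b := b) hD (fun Q hQ => (key Q hQ).1) M hM hP
      have hl2 := all_powers' (a := a) (b := b) hD (fun Q hQ => (key Q hQ).2) M hM hP
      have hc : canM M P = chatM M P / (2 * Module.finrank ℚ K) := rfl
      constructor
      · rw [hc, le_div_iff₀ (by positivity)]
        have e5 : ((1 / 12 - η) * hj j - C5) * (2 * (Module.finrank ℚ K : ℝ)) =
            (1 / 6 - 2 * η) * (Module.finrank ℚ K * hj j) - 2 * (Module.finrank ℚ K * C5) := by
          ring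
        rw [e5, hH]
        linarith
      · rw [hc, le_div_iff₀ (by positivity)]
        have e5 : (1 / 12 * falt a b - η * hj j - C5) * (2 * (Module.finrank ℚ K : ℝ)) =
            1 / 72 * (12 * Module.finrank ℚ K * falt a b) -
            2 * η * (Module.finrank ℚ K * hj j) - 2 * (Module.finrank ℚ K * C5) := by
          ring
        rw [e5, hH, hF]
        linarith
  · intro a b hD hj' x y h
    obtain ⟨ha, hb, e, et⟩ := hcurve a b hD hj'
    have hF := falt_eq a b
    rw [hj'] at hF
    have hP := no_two ha hb hD (by rw [e]; exact g1)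
      (P := (Affine.Point.some x y h : SPt a b)) (by intro h9; cases h9)
    obtain ⟨k1, k2, k3⟩ := point_bounds ha hb hD hη.le (by linarith) (by rw [← et]; exact g3)
      (by rw [← et]; exact g4) (by rw [e]; exact g2) h hP
    rw [e] at k1 k2 k3
    have hc : can (Affine.Point.some x y h : SPt a b) =
      chat (Affine.Point.some x y h : SPt a b) / (2 * Module.finrank ℚ K) := rfl
    refine ⟨?_, ?_, ?_⟩
    · intro hx
      obtain ⟨_, _, k4, k5⟩ := k1 hx
      constructor
      · rw [hc, div_le_iff₀ (by positivity)]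
        have e5 : (1 / 12 * hj j + C5) * (2 * (Module.finrank ℚ K : ℝ)) =
            1 / 6 * (Module.finrank ℚ K * hj j) + 2 * (Module.finrank ℚ K * C5) := by
          ring
        rw [e5, hH]
        linarith
      · have e5 : 12 * (Module.finrank ℚ K : ℝ) * ((1 - η) * hj j - C5) =
            12 * (1 - η) * (Module.finrank ℚ K * hj j) - 12 * (Module.finrank ℚ K * C5) := by ring
        have h3 : 12 * (Module.finrank ℚ K : ℝ) * ((1 - η) * hj j - C5) ≤
            12 * (Module.finrank ℚ K : ℝ) * falt a b := by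
          rw [e5, hH, hF]
          linarith
        exact le_of_mul_le_mul_left h3 (by positivity)
    · intro hx
      obtain ⟨k4, k5⟩ := k2 hx
      constructor
      · rw [hc, le_div_iff₀ (by positivity)]
        have e5 : ((1 / 8 - η) * hj j - C5) * (2 * (Module.finrank ℚ K : ℝ)) =
            (1 / 4 - 2 * η) * (Module.finrank ℚ K * hj j) - 2 * (Module.finrank ℚ K * C5) := by
          ring
        rw [e5, hH]
        linarith
      · rw [hc, le_div_iff₀ (by positivity)]
        have e5 : (1 / 12 * falt a b + (1 / 24 - η) * hj j - C5) *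
            (2 * (Module.finrank ℚ K : ℝ)) =
            1 / 72 * (12 * Module.finrank ℚ K * falt a b) +
            (1 / 12 - 2 * η) * (Module.finrank ℚ K * hj j) -
            2 * (Module.finrank ℚ K * C5) := by
          ring
        rw [e5, hH, hF]
        linarith
    · intro hx h2
      have k4 := k3 hx h2
      rw [hc, le_div_iff₀ (by positivity)]
      have e5 : ((5 / 24 - η) * hj j - C5) * (2 * (Module.finrank ℚ K : ℝ)) =
          (5 / 12 - 2 * η) * (Module.finrank ℚ K * hj j) - 2 * (Module.finrank ℚ K * C5) := by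
        ring
      rw [e5, hH]
      linarith

open Classical in
theorem families_of {η : ℝ} (hη : 0 < η) {j : K} (h0 : j ≠ 0) (h1 : j ≠ 1728)
    (hN : Nice η j) : Families η C5 j := by
  obtain ⟨g1, g2, g3, g4⟩ := hN
  have hn := n_pos (K := K)
  have hC := C5_nonneg
  have hH : Module.finrank ℚ K * hj j = ht j := hj_eq j
  have hH0 : 0 ≤ ht j := ht_nonneg j
  have hηH : 0 ≤ η * ht j := mul_nonneg hη.le hH0
  have hc0 : 0 ≤ Module.finrank ℚ K * C5 := by positivity
  have ht0 : tj j ≠ 0 := tj_ne h0 h1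
  have h1' : (1728 : K) - j ≠ 0 := fun h => h1 (by linear_combination -h)
  have hrr : 4 * tj j + 27 ≠ 0 := by
    have e : 4 * tj j + 27 = 46656 / (1728 - j) := by
      unfold tj
      field_simp
      ring
    rw [e]
    exact div_ne_zero (by norm_num) h1'
  have hjt : ∀ a b : K, a ≠ 0 → b ≠ 0 → dl a b ≠ 0 → tt a b = tj j → jj a b = j := by
    intro a b ha hb hD he
    have e1 := (tt_j ha hb hD).1
    have e2 := (tt_j ha hb hD).2
    apply tj_inj (fun h => e2 (by rw [h]; ring)) h1
    rw [← he]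
    exact e1.symm
  have hconv : ∀ (a b x y : K) (h : (sw a b).toAffine.Nonsingular x y) (c : ℝ),
      chat (Affine.Point.some x y h : SPt a b) ≤ (2 * c) * ht j + Module.finrank ℚ K * C5 →
      can (Affine.Point.some x y h : SPt a b) ≤ c * hj j + C5 := by
    intro a b x y h c hle
    have hc : can (Affine.Point.some x y h : SPt a b) =
      chat (Affine.Point.some x y h : SPt a b) / (2 * Module.finrank ℚ K) := rfl
    rw [hc, div_le_iff₀ (by positivity)]
    have e5 : (c * hj j + C5) * (2 * (Module.finrank ℚ K : ℝ)) =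
        2 * c * (Module.finrank ℚ K * hj j) + 2 * (Module.finrank ℚ K * C5) := by
      ring
    rw [e5, hH]
    linarith
  refine ⟨?_, ?_, ?_⟩
  · have hf : ff (tj j) 0 ≠ 0 := by
      unfold ff
      simpa using ht0
    obtain ⟨a, b, x, y, h, ha, hb, hD, e1, e2, e3⟩ := exists_twist ht0 hrr hf
    exact ⟨a, b, x, y, h, hD, hjt a b ha hb hD e1, by rw [e3, mul_zero]⟩
  · have hf : ff (tj j) (-(3 / 2)) ≠ 0 := by
      have e : ff (tj j) (-(3 / 2)) = -(4 * tj j + 27) / 8 := by
        unfold ff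
        ring
      rw [e]
      exact div_ne_zero (neg_ne_zero.2 hrr) (by norm_num)
    obtain ⟨a, b, x, y, h, ha, hb, hD, e1, e2, e3⟩ := exists_twist ht0 hrr hf
    have ej := hjt a b ha hb hD e1
    refine ⟨a, b, x, y, h, hD, ej, ?_, ?_, ?_⟩
    · rw [e3]
      exact mul_ne_zero hf (by norm_num)
    · have e4 : 2 * a * x + 3 * b = b * (2 * (x * a / b) + 3) := by
        field_simp
      rw [e4, e2]
      ring
    · apply hconv
      have := up_two ha hb hD hη.le (by rw [ej]; exact g2) h e2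
      rw [ej] at this
      linarith
  · have hX : (2 / 9 * tj j : K) ≠ 0 := mul_ne_zero (by norm_num) ht0
    have hf : ff (tj j) (2 / 9 * tj j) ≠ 0 := by
      intro hf0
      apply g1
      have hD' : dl (tj j) (tj j) ≠ 0 := by
        rw [dl_tt]
        exact mul_ne_zero (pow_ne_zero _ ht0) hrr
      have hroot : (2 / 9 * tj j) ^ 3 + tj j * (2 / 9 * tj j) + tj j = 0 := hf0
      have h2 := two_of_root ht0 ht0 hD' hroot
      have e : tt (tj j) (tj j) = tj j := by
        unfold tt
        field_simp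
      rwa [hjt _ _ ht0 ht0 hD' e] at h2
    obtain ⟨a, b, x, y, h, ha, hb, hD, e1, e2, e3⟩ := exists_twist ht0 hrr hf
    have ej := hjt a b ha hb hD e1
    refine ⟨a, b, x, y, h, hD, ej, ?_, ?_, ?_⟩
    · rw [e3]
      exact mul_ne_zero hf hX
    · have e4 : 2 * a * x + 3 * b = b * (2 * (x * a / b) + 3) := by
        field_simp
      rw [e4, e2]
      have e5 : 2 * (2 / 9 * tj j) + 3 = (4 * tj j + 27) / 9 := by
        field_simp
        ring
      rw [e5]
      exact mul_ne_zero hb (div_ne_zero hrr (by norm_num))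
    · apply hconv
      have := up_three ha hb hD hη.le (by rw [ej]; exact g2) h (by rw [e2, e1])
      rw [ej] at this
      linarith

/-- the number of exceptional invariants -/
theorem part_one {η ε : ℝ} (hη0 : 0 < η) (hη : η < 1 / 2) (hε : 0 < ε) : ∃ D : ℝ, 0 < D ∧
    ∀ (K : Type) [Field K] [NumberField K] (B : ℝ), 1 ≤ B →
      (Inv K B).Finite ∧
      (({j ∈ Inv K B | ¬ (Lower η C5 j ∧ Points η C5 j ∧ Families η C5 j)}.ncard : ℕ) : ℝ) ≤
        (D * B ^ (2 - η / 2 + ε)) ^ Module.finrank ℚ K := by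
  obtain ⟨A, hA, h⟩ := nice_count hη0 hη hε
  refine ⟨Real.exp A, Real.exp_pos _, ?_⟩
  intro K _ _ B hB
  have hB0 : 0 < B := by linarith
  refine ⟨fin_Inv B, ?_⟩
  refine (ncard_le fun E hE => ?_).2
  refine (h K (Module.finrank ℚ K * Real.log B) E
    (mul_nonneg n_pos.le (Real.log_nonneg hB)) ?_).trans (le_of_eq ?_)
  · intro j hj'
    obtain ⟨h1, h2⟩ := hE (Finset.mem_coe.2 hj')
    obtain ⟨h3, h4, h5⟩ := mem_Inv h1
    refine ⟨h3, h4, h5, fun hN => h2 ?_⟩
    obtain ⟨h6, h7⟩ := lower_of hη0 hη h3 h4 hN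
    exact ⟨h6, h7, families_of hη0 h3 h4 hN⟩
  · rw [Real.rpow_def_of_pos hB0, ← Real.exp_add, ← Real.exp_nat_mul]
    congr 1
    ring

theorem opt_of {θ : ℝ} (hθ : 0 < θ) (hθ1 : θ ≤ 1 / 24) {j : K}
    (h1 : Lower (θ / 8) C5 j) (h2 : Points (θ / 8) C5 j) (h3 : Families (θ / 8) C5 j)
    (hbig : 2 * C5 + rd K / 24 ≤ θ / 4 * hj j) : Opt θ j := by
  have hC := C5_nonneg
  have hR := rd_nonneg K
  have hh : 0 ≤ hj j := by
    by_contra hcon
    push Not at hcon
    have : θ / 4 * hj j < 0 := mul_neg_of_pos_of_neg (by positivity) hcon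
    linarith
  have hlog : Real.log (rootDisc K) = rd K := by rw [rootDisc_eq, Real.log_exp]
  have hθh : 0 ≤ θ * hj j := by positivity
  have hθC : θ * C5 ≤ C5 := by nlinarith
  constructor
  · intro a b hD hj' g M hM P hP
    obtain ⟨k1, k2⟩ := h1 a b hD hj'
    obtain ⟨_, k3⟩ := k2 g M hM P hP
    rw [hlog]
    have k4 : θ * ((1 / 2 - θ / 8) * hj j - C5) ≤ θ * falt a b :=
      mul_le_mul_of_nonneg_left k1 hθ.le
    have k5 : θ * (θ * hj j) ≤ 1 / 24 * (θ * hj j) := mul_le_mul_of_nonneg_right hθ1 hθh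
    have k6 : 0 ≤ θ * rd K := by positivity
    nlinarith
  · obtain ⟨a, b, x, y, h, hD, hj', hx⟩ := h3.1
    refine ⟨a, b, hD, hj', Affine.Point.some x y h, (by intro h9; cases h9), ?_⟩
    obtain ⟨k1, k2⟩ := (h2 a b hD hj' x y h).1 hx
    refine k1.trans ?_
    have k4 : (1 / 12 + θ) * ((1 - θ / 8) * hj j - C5) ≤ (1 / 12 + θ) * falt a b :=
      mul_le_mul_of_nonneg_left k2 (by positivity)
    have k5 : θ * (θ * hj j) ≤ 1 / 24 * (θ * hj j) := mul_le_mul_of_nonneg_right hθ1 hθh
    nlinarith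

theorem opt_mono {θ θ' : ℝ} (h : θ ≤ θ') {j : K} (h0 : j ≠ 0) (h1 : j ≠ 1728)
    (hO : Opt θ j) : Opt θ' j := by
  have hR := rd_nonneg K
  have hlog : Real.log (rootDisc K) = rd K := by rw [rootDisc_eq, Real.log_exp]
  constructor
  · intro a b hD hj' g M hM P hP
    refine le_trans ?_ (hO.1 a b hD hj' g M hM P hP)
    obtain ⟨ha, hb⟩ := ne_of_jInv h0 h1 hD hj'
    have h2 := falt_nonneg ha hb
    rw [hlog]
    apply mul_le_mul_of_nonneg_right (by linarith) (by positivity)
  · obtain ⟨a, b, hD, hj', P, hP, h3⟩ := hO.2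
    obtain ⟨ha, hb⟩ := ne_of_jInv h0 h1 hD hj'
    refine ⟨a, b, hD, hj', P, hP, h3.trans ?_⟩
    exact mul_le_mul_of_nonneg_right (by linarith) (falt_nonneg ha hb)

/-- the proportion of the exceptional invariants for the optimal constant -/
theorem part_two {θ : ℝ} (hθ : 0 < θ) : ∃ κ B0 : ℝ, 0 < κ ∧ 0 < B0 ∧
    ∀ (K : Type) [Field K] [NumberField K] (B : ℝ), (B0 * rootDisc K) ^ B0 ≤ B →
      (({j ∈ Inv K B | ¬ Opt θ j}.ncard : ℕ) : ℝ) ≤
        (B ^ (-κ)) ^ Module.finrank ℚ K * ((Inv K B).ncard : ℝ) := by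
  classical
  set θ1 : ℝ := min θ (1 / 24) with hθ1
  have t1 : 0 < θ1 := lt_min hθ (by norm_num)
  have t2 : θ1 ≤ 1 / 24 := min_le_right _ _
  have t3 : θ1 ≤ θ := min_le_left _ _
  set η : ℝ := θ1 / 8 with hη
  have hη0 : 0 < η := by positivity
  have hη1 : η < 1 / 2 := by linarith
  set ε : ℝ := η / 16 with hε
  have hε0 : 0 < ε := by positivity
  obtain ⟨A1, hA1, hall⟩ := all_card (ε := 1) one_pos
  obtain ⟨A2, hA2, hnice⟩ := nice_count hη0 hη1 hε0
  obtain ⟨A3, hA3, hinv⟩ := inv_log hε0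
  have hl3 : 0 ≤ Real.log 3 := Real.log_nonneg (by norm_num)
  have hl16 : 0 ≤ Real.log 16 := Real.log_nonneg (by norm_num)
  have hC := C5_nonneg
  set S : ℝ := Real.log 3 + A1 + A2 + A3 with hS
  have hS0 : 0 ≤ S := by positivity
  set T0 : ℝ := S + Real.log 16 + 2 * C5 + 8 / θ1 + 48 / (5 * η) + 1 with hT0
  have q1 : 0 ≤ 8 / θ1 := by positivity
  have q2 : 0 ≤ 48 / (5 * η) := by positivity
  have hT00 : 0 ≤ T0 := by positivity
  refine ⟨η / 16, Real.exp T0, by positivity, Real.exp_pos _, ?_⟩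
  intro K _ _ B hB
  have hn := n_pos (K := K)
  have hn1 := finrank_one_le K
  have hR := rd_nonneg K
  have hB0 : 0 < B := by
    refine lt_of_lt_of_le ?_ hB
    rw [rootDisc_eq]
    positivity
  have hlB : Real.exp T0 * (T0 + rd K) ≤ Real.log B := by
    rw [rootDisc_eq, ← Real.exp_add, ← Real.exp_mul] at hB
    have := Real.log_le_log (Real.exp_pos _) hB
    rw [Real.log_exp] at this
    linarith
  set ℓ := Real.log B with hℓ
  set n := Module.finrank ℚ K with hnn
  have hexp : T0 + 1 ≤ Real.exp T0 := Real.add_one_le_exp T0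
  have hTR : 0 ≤ T0 + rd K := by positivity
  have hmul : ∀ c : ℝ, c ≤ T0 → c * (T0 + rd K) ≤ ℓ := by
    intro c hc
    refine le_trans ?_ hlB
    exact mul_le_mul_of_nonneg_right (by linarith) hTR
  have w1 : Real.log 16 + rd K / 2 ≤ ℓ := by
    have := hmul 1 (by linarith)
    linarith
  have w2 : 4 / θ1 * (2 * C5 + rd K / 24) ≤ ℓ / 2 := by
    have h1 := hmul (8 / θ1) (by linarith)
    have h2 : 8 / θ1 * (2 * C5 + rd K / 24) ≤ 8 / θ1 * (T0 + rd K) :=
      mul_le_mul_of_nonneg_left (by linarith) q1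
    have e : 4 / θ1 * (2 * C5 + rd K / 24) = 8 / θ1 * (2 * C5 + rd K / 24) / 2 := by ring
    rw [e]
    linarith
  have w3 : S + 3 * rd K ≤ 5 * η / 16 * ℓ := by
    have h1 := hmul (48 / (5 * η)) (by linarith)
    have h2 : 5 * η / 16 * (48 / (5 * η) * (T0 + rd K)) ≤ 5 * η / 16 * ℓ :=
      mul_le_mul_of_nonneg_left h1 (by positivity)
    have e : 5 * η / 16 * (48 / (5 * η) * (T0 + rd K)) = 3 * (T0 + rd K) := by
      field_simp
      ring
    rw [e] at h2
    linarith
  have hℓ0 : 0 ≤ ℓ := by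
    have := hmul 0 hT00
    linarith
  have hlow := hinv K B hB0 w1
  have hcount : (({j ∈ Inv K B | ¬ Opt θ j}.ncard : ℕ) : ℝ) ≤
      Real.exp (n * (Real.log 3 + A1 + A2 + (2 - η / 2 + ε) * ℓ)) := by
    refine (ncard_le fun E hE => ?_).2
    set Ea := E.filter fun j => ¬ Nice η j with hEa
    set Eb := E.filter fun j => j ≠ -1 ∧ ht j ≤ n * (ℓ / 2) with hEb
    have hmem : ∀ j ∈ E, (j ≠ 0 ∧ j ≠ 1728 ∧ ht j ≤ n * ℓ) ∧ ¬ Opt θ j := by
      intro j hj'
      obtain ⟨h1, h2⟩ := hE (Finset.mem_coe.2 hj')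
      exact ⟨mem_Inv h1, h2⟩
    have hsub : E ⊆ (Ea ∪ Eb) ∪ {-1} := by
      intro j hj'
      rw [Finset.mem_union, Finset.mem_union, Finset.mem_singleton]
      by_cases h1 : j = -1
      · exact Or.inr h1
      left
      obtain ⟨⟨h2, h3, h4⟩, h5⟩ := hmem j hj'
      by_contra hcon
      push Not at hcon
      obtain ⟨c1, c2⟩ := hcon
      rw [hEa, Finset.mem_filter] at c1
      rw [hEb, Finset.mem_filter] at c2
      push Not at c1 c2
      apply h5
      obtain ⟨h6, h7⟩ := lower_of hη0 hη1 h2 h3 (c1 hj')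
      apply opt_mono t3 h2 h3
      apply opt_of t1 t2 h6 h7 (families_of hη0 h2 h3 (c1 hj'))
      have h8 := (c2 hj' h1).le
      rw [← hj_eq j] at h8
      have h9 : ℓ / 2 ≤ hj j := le_of_mul_le_mul_left h8 hn
      have h10 := w2.trans h9
      have h11 : θ1 / 4 * (4 / θ1 * (2 * C5 + rd K / 24)) ≤ θ1 / 4 * hj j :=
        mul_le_mul_of_nonneg_left h10 (by positivity)
      have e : θ1 / 4 * (4 / θ1 * (2 * C5 + rd K / 24)) = 2 * C5 + rd K / 24 := by
        field_simp
      rw [e] at h11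
      exact h11
    have b1 : (Ea.card : ℝ) ≤ Real.exp (n * A2 + (2 - η / 2 + ε) * (n * ℓ)) := by
      refine hnice K (n * ℓ) Ea (by positivity) ?_
      intro j hj'
      rw [hEa, Finset.mem_filter] at hj'
      obtain ⟨⟨h2, h3, h4⟩, h5⟩ := hmem j hj'.1
      exact ⟨h2, h3, h4, hj'.2⟩
    have b2 : (Eb.card : ℝ) ≤ Real.exp (n * A1 + (2 + 1) * (n * (ℓ / 2))) := by
      refine hall K (n * (ℓ / 2)) Eb ?_
      intro j hj'
      rw [hEb, Finset.mem_filter] at hj'
      obtain ⟨⟨h2, h3, h4⟩, h5⟩ := hmem j hj'.1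
      refine ⟨⟨h2, fun h0 => hj'.2.1 ?_⟩, hj'.2.2⟩
      linear_combination h0
    have hcard : (E.card : ℝ) ≤ Ea.card + Eb.card + 1 := by
      have h1 := Finset.card_le_card hsub
      have h2 := Finset.card_union_le (Ea ∪ Eb) ({-1} : Finset K)
      have h3 := Finset.card_union_le Ea Eb
      rw [Finset.card_singleton] at h2
      exact_mod_cast (by omega : E.card ≤ Ea.card + Eb.card + 1)
    set M0 : ℝ := n * (A1 + A2 + (2 - η / 2 + ε) * ℓ) with hM0
    have hn0 : (0 : ℝ) ≤ n := hn.le
    have m1 : Real.exp (n * A2 + (2 - η / 2 + ε) * (n * ℓ)) ≤ Real.exp M0 := by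
      apply Real.exp_le_exp.2
      have h2 : 0 ≤ n * A1 := by positivity
      rw [hM0]
      linarith
    have m2 : Real.exp (n * A1 + (2 + 1) * (n * (ℓ / 2))) ≤ Real.exp M0 := by
      apply Real.exp_le_exp.2
      have h2 : 0 ≤ n * A2 := by positivity
      have h3 : (3 / 2) * (n * ℓ) ≤ (2 - η / 2 + ε) * (n * ℓ) :=
        mul_le_mul_of_nonneg_right (by linarith) (by positivity)
      rw [hM0]
      linarith
    have m3 : 1 ≤ Real.exp M0 := by
      apply Real.one_le_exp
      have : 0 ≤ 2 - η / 2 + ε := by linarith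
      positivity
    have hfin : (E.card : ℝ) ≤ 3 * Real.exp M0 := by linarith
    refine hfin.trans ?_
    have h4 : (3 : ℝ) ≤ Real.exp (n * Real.log 3) := by
      calc (3 : ℝ) = Real.exp (Real.log 3) := (Real.exp_log (by norm_num)).symm
        _ ≤ Real.exp (n * Real.log 3) := Real.exp_le_exp.2 (by nlinarith)
    calc 3 * Real.exp M0 ≤ Real.exp (n * Real.log 3) * Real.exp M0 :=
          mul_le_mul_of_nonneg_right h4 (Real.exp_pos _).le
      _ = _ := by
          rw [← Real.exp_add, hM0]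
          congr 1
          ring
  refine hcount.trans ?_
  refine le_trans ?_ (mul_le_mul_of_nonneg_left hlow (by positivity))
  rw [Real.rpow_def_of_pos hB0, ← Real.exp_nat_mul, ← Real.exp_add]
  apply Real.exp_le_exp.2
  have e : (n : ℝ) * (ℓ * -(η / 16)) + n * ((2 - ε) * ℓ - (2 + ε) * rd K - A3) =
      n * ((2 - ε - η / 16) * ℓ - (2 + ε) * rd K - A3) := by ring
  rw [e]
  apply mul_le_mul_of_nonneg_left _ hn.le
  have h5 : (2 + ε) * rd K ≤ 3 * rd K := mul_le_mul_of_nonneg_right (by linarith) hR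
  have e2 : (2 - ε - η / 16) * ℓ = (2 - η / 2 + ε) * ℓ + 5 * η / 16 * ℓ := by
    rw [hε]
    ring
  rw [e2]
  linarith

end Main

open Classical in
/-- **Main theorem.** (1) There is an absolute constant `C` such that for all `0 < η < 1/2` and
`ε > 0`, over every number field `K` of degree `n` and for every `B ≥ 1`, the three properties
`Lower η C j` (lower bounds for all points of all powers of all twists), `Points η C j` (the points
with `x = 0`, and better lower bounds for all others) and `Families η C j` (points attaining these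
bounds) hold for all `j ∈ K` of absolute height at most `B`, `j ≠ 0, 1728`, up to at most
`(D * B ^ (2 - η / 2 + ε)) ^ n` exceptions.
(2) For every `θ > 0`, the constant `1/12 - θ` is good, and `1/12 + θ` is not, in the lower bound of
Lang and Silverman, for all but a proportion `B ^ (-κ n)` of these invariants, uniformly in all
number fields `K` and all `B ≥ (B0 * δ_K) ^ B0`.
(3) `chat` is the limit of `sht (2 ^ k P) / 4 ^ k`. -/
theorem result :
    (∃ C : ℝ, ∀ η ε : ℝ, 0 < η → η < 1 / 2 → 0 < ε → ∃ D : ℝ, 0 < D ∧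
      ∀ (K : Type) [Field K] [NumberField K] (B : ℝ), 1 ≤ B →
        (Inv K B).Finite ∧
        (({j ∈ Inv K B | ¬ (Lower η C j ∧ Points η C j ∧ Families η C j)}.ncard : ℕ) : ℝ) ≤
          (D * B ^ (2 - η / 2 + ε)) ^ Module.finrank ℚ K) ∧
    (∀ θ : ℝ, 0 < θ → ∃ κ B0 : ℝ, 0 < κ ∧ 0 < B0 ∧
      ∀ (K : Type) [Field K] [NumberField K] (B : ℝ), (B0 * rootDisc K) ^ B0 ≤ B →
        (({j ∈ Inv K B | ¬ Opt θ j}.ncard : ℕ) : ℝ) ≤
          (B ^ (-κ)) ^ Module.finrank ℚ K * ((Inv K B).ncard : ℝ)) ∧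
    (∀ (K : Type) [Field K] [NumberField K] (a b : K), 4 * a ^ 3 + 27 * b ^ 2 ≠ 0 →
      ∀ P : SPt a b, Filter.Tendsto (fun k : ℕ => sht ((2 ^ k : ℕ) • P) / 4 ^ k) Filter.atTop
        (nhds (chat P))) :=
  ⟨⟨C5, fun _ _ h1 h2 h3 => part_one h1 h2 h3⟩, fun _ h => part_two h,
    fun _ _ _ _ _ hD P => (chat_spec hD).1 P⟩

end Pool.Agent.Results.MP_9a3c31_nt.OptimalConstant
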