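import Pool.Agent.T9h59.OR.B
import Pool.Agent.T9h59.LS.Count

/-!
# Lang and Silverman's lower bound for all elliptic curves with `j` of height near the orders of the subgroups of `F_p^*`

Let `K` be a number field, `H_K(j)` the multiplicative height relative to `K`, `0 < η < 1/2` and `b > 0`.
Let `G` have steps bounded below by a positive constant and growth at most `v^d`, `θ ≥ 0`, `σ = d (2 - η / 2) / b + θ < 1` and
`0 ≤ γ < 1`. For all primes `p ≤ X` but `O(X^(1 - ρ))`, `ρ < (1 - γ) (1 - σ) / 2`: for ALL subgroups of `F_p^*` which contain an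
integer `a`, `2 ≤ a ≤ X^γ`, for example those generated by such an integer, with the order `w`,
ALL `j ∈ K`, `j ≠ 0, 1728`, with `|H_K(j)^b - G w| ≤ w^θ` satisfy the bound `LangSilverman` with the absolute constant
`(1 - 2 η) / 100`, for all elliptic curves over `K` of invariant `j` (all twists), their powers and all polarizations.
The number of the `w` which occur is not restricted, one prime has many subgroups of this kind, and one `w` can occur for
many primes; the proof counts the primes with `p ∣ a ^ w - 1` for small `w`, and the cofactors `(p - 1) / w` for large `w`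
(`T9h59/OR`).

The starting theorem `AllFieldsAllTwists` of this problem bounds the number of the exceptional invariants.
-/

set_option autoImplicit false

namespace Pool.Agent.Results.MP_9a3c31_nt.SubgroupOrders

open NumberField Finset
open Pool.Agent.Results.MP_9a3c31_nt.AllFieldsAllTwists (LangSilverman)
open Pool.Agent.T9h59.LS (Exc mheight count)
open Pool.Agent.N733.TG (Expanding expanding_pow)
open Pool.Agent.T9h59.OR (SubOrder sub_windows subOrder_orderOf)

/-- **Lang and Silverman's lower bound for all elliptic curves with `j` of height near the orders of the subgroups of `F_p^*`.** Let `K` be a number field, `H_K(j)` the multiplicative height relative to `K`, `0 < η < 1/2` and `b > 0`.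
Let `G` have steps `≥ a > 0` and growth at most `v^d`, `θ ≥ 0`, `σ = d (2 - η / 2) / b + θ < 1`, `0 ≤ γ < 1` and
`ρ < (1 - γ) (1 - σ) / 2`. For all primes `p ≤ X` but `C X^(1 - ρ)`: for the order `w` of EVERY subgroup of `F_p^*` which
contains an integer `a`, `2 ≤ a ≤ X^γ` (`SubOrder (X ^ γ) p w`), ALL `j ∈ K`, `j ≠ 0, 1728`, with `|H_K(j)^b - G w| ≤ w^θ` satisfy the bound `LangSilverman` with the absolute constant
`(1 - 2 η) / 100`, for all elliptic curves over `K` of invariant `j` (all twists), their powers and all polarizations.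
The order of `a` modulo `p` is such a number `w`, and `α v^d` with `α > 0`, `d ≥ 1` is an example of `G`. -/
theorem result :
    (∀ (K : Type) [Field K] [NumberField K] (η b : ℝ), 0 < η → η < 1 / 2 → 0 < b →
      ∀ (G : ℕ → ℝ) (d θ : ℝ), Expanding G d → 0 ≤ θ → d * ((2 - η / 2) / b) + θ < 1 →
      ∀ γ ρ : ℝ, 0 ≤ γ → γ < 1 → ρ < (1 - γ) * (1 - (d * ((2 - η / 2) / b) + θ)) / 2 → ∃ C : ℝ, ∀ X : ℕ, 1 ≤ X →
      ({p : ℕ | p.Prime ∧ p ≤ X ∧ ¬ ∀ w, SubOrder ((X : ℝ) ^ γ) p w → ∀ j : K, j ≠ 0 → j ≠ 1728 →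
        |mheight j ^ b - G w| ≤ (w : ℝ) ^ θ → LangSilverman ((1 - 2 * η) / 100) j}.ncard : ℝ) ≤ C * (X : ℝ) ^ (1 - ρ)) ∧
    (∀ (B : ℝ) (p a : ℕ), p.Prime → 2 ≤ a → (a : ℝ) ≤ B → ¬ p ∣ a → SubOrder B p (orderOf (a : ZMod p))) ∧
    ∀ α d : ℝ, 0 < α → 1 ≤ d → Expanding (fun v => α * (v : ℝ) ^ d) d := by
  refine ⟨fun K _ _ η b hη0 hη hb G d θ hG hθ h1 γ ρ hγ0 hγ1 hρ => ?_,
    fun B p a hp ha haB hpa => subOrder_orderOf hp ha haB hpa, fun α d hα hd => expanding_pow hα hd⟩
  obtain ⟨C, hC⟩ := sub_windows (Exc K η b) (fun x => x) hG (s := ((2 - η / 2) / b))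
    (div_nonneg (by linarith) hb.le) hθ h1
    (fun ε hε => count K hη0 hη hb ε hε) hγ0 hγ1 hρ
  refine ⟨C, fun X hX => le_trans ?_ (hC X hX)⟩
  have hfin : {p : ℕ | p.Prime ∧ p ≤ X ∧ ∃ n, SubOrder ((X : ℝ) ^ γ) p n ∧
      ∃ x ∈ (Exc K η b), |x - G n| ≤ (n : ℝ) ^ θ}.Finite :=
    (Set.finite_Icc 0 X).subset (fun p hp => ⟨Nat.zero_le _, hp.2.1⟩)
  have hsub : {p : ℕ | p.Prime ∧ p ≤ X ∧ ¬ ∀ w, SubOrder ((X : ℝ) ^ γ) p w → ∀ j : K, j ≠ 0 → j ≠ 1728 →
        |mheight j ^ b - G w| ≤ (w : ℝ) ^ θ → LangSilverman ((1 - 2 * η) / 100) j} ⊆ {p : ℕ | p.Prime ∧ p ≤ X ∧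
      ∃ n, SubOrder ((X : ℝ) ^ γ) p n ∧ ∃ x ∈ (Exc K η b), |x - G n| ≤ (n : ℝ) ^ θ} := by
    rintro p ⟨hp, hpX, hn⟩
    push Not at hn
    obtain ⟨w, hw, j, hj0, hj1, hnear, hbad⟩ := hn
    exact ⟨hp, hpX, w, hw, mheight j ^ b, ⟨j, hj0, hj1, hbad, rfl⟩, hnear⟩
  exact_mod_cast Set.ncard_le_ncard hsub hfin

end Pool.Agent.Results.MP_9a3c31_nt.SubgroupOrders
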